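import Pool.Agent.Q44.BC.LA2

/-!
# The sum of the law and its tails
-/

set_option autoImplicit false

namespace Q44.BC

open Finset Filter Topology
open Pool.Agent.Y697.PQ
open Q283.GM (ij_self cf_le_one ij_self_pos)

/-- the majorant -/
noncomputable def GM (x : ℝ) : ℝ := ∑' j : ℕ, cf j * x ^ j

theorem gx_le {x y : ℝ} (h0 : 0 ≤ x) (h : x ≤ y) : |gx x| ≤ GM y := by
  unfold gx GM
  have h1 : ∀ j : ℕ, ‖(-1) ^ j * cf j * x ^ j‖ ≤ cf j * y ^ j := by
    intro j
    rw [norm_mul, norm_mul, norm_pow, norm_neg, norm_one, one_pow, one_mul, Real.norm_eq_abs,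
      abs_of_pos (cf_pos j), norm_pow, Real.norm_eq_abs, abs_of_nonneg h0]
    exact mul_le_mul_of_nonneg_left (pow_le_pow_left₀ h0 h j) (cf_pos j).le
  rw [← Real.norm_eq_abs]
  exact tsum_of_norm_bounded (summ_cf y).hasSum h1

theorem GM_nonneg {y : ℝ} (hy : 0 ≤ y) : 0 ≤ GM y :=
  tsum_nonneg fun j => mul_nonneg (cf_pos j).le (pow_nonneg hy j)

theorem ij_ge (r : ℕ) : (2 : ℝ) ^ (r * (r - 1)) ≤ ij r (2 ^ r) := by
  unfold ij
  have h1 : ∏ _i ∈ range r, (2 : ℝ) ^ (r - 1) ≤ ∏ i ∈ range r, ((2 : ℝ) ^ r - 2 ^ i) := by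
    refine prod_le_prod (fun _ _ => by positivity) fun i hi => ?_
    rw [mem_range] at hi
    have h2 : (2 : ℝ) ^ i ≤ 2 ^ (r - 1) := pow_le_pow_right₀ (by norm_num) (by omega)
    have h3 : (2 : ℝ) ^ r = 2 * 2 ^ (r - 1) := by
      rw [← pow_succ']
      congr 1
      omega
    linarith
  rw [prod_const, card_range, ← pow_mul, mul_comm (r - 1) r] at h1
  exact h1

theorem lam_le {t T : ℝ} (ht : 0 ≤ t) (h : t ≤ T) (r : ℕ) :
    |lam t r| ≤ GM T * (t ^ r / 2 ^ (r * (r - 1))) := by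
  unfold lam
  have h1 := ij_ge r
  have h2 : (0 : ℝ) < 2 ^ (r * (r - 1)) := by positivity
  have h3 : t / 2 ^ r ≤ T := (div_le_self ht (one_le_pow₀ (by norm_num))).trans h
  rw [abs_mul, abs_of_nonneg (div_nonneg (pow_nonneg ht r) (h2.le.trans h1)), mul_comm]
  refine mul_le_mul (gx_le (by positivity) h3) ?_ (div_nonneg (pow_nonneg ht r) (h2.le.trans h1))
    (GM_nonneg (ht.trans h))
  exact div_le_div_of_nonneg_left (pow_nonneg ht r) h2 h1

theorem summ_u (t : ℝ) : Summable fun r : ℕ => t ^ r / 2 ^ (r * (r - 1)) := by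
  by_cases ht : t = 0
  · subst ht
    refine summable_of_ne_finset_zero (s := {0}) fun j hj => ?_
    rw [zero_pow (by simpa using hj), zero_div]
  · refine summable_of_ratio_test_tendsto_lt_one (l := 0) one_pos ?_ ?_
    · exact Eventually.of_forall fun j => div_ne_zero (pow_ne_zero j ht) (by positivity)
    · have h1 : ∀ r : ℕ, ‖t ^ (r + 1) / 2 ^ ((r + 1) * (r + 1 - 1))‖ / ‖t ^ r / 2 ^ (r * (r - 1))‖ =
          |t| / 2 ^ (2 * r) := by
        intro r
        rw [← norm_div, Real.norm_eq_abs]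
        have h2 : t ^ (r + 1) / 2 ^ ((r + 1) * (r + 1 - 1)) / (t ^ r / 2 ^ (r * (r - 1))) =
            t / 2 ^ (2 * r) := by
          have h3 : (r + 1) * (r + 1 - 1) = r * (r - 1) + 2 * r := by
            cases r with
            | zero => rfl
            | succ k =>
              simp only [Nat.add_sub_cancel]
              ring
          rw [h3, pow_add (2 : ℝ), pow_succ t]
          have h4 := pow_ne_zero r ht
          field_simp
        rw [h2, abs_div, abs_of_pos (show (0 : ℝ) < 2 ^ (2 * r) by positivity)]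
      simp only [h1]
      refine tendsto_const_nhds.div_atTop ?_
      exact (tendsto_pow_atTop_atTop_of_one_lt (by norm_num)).comp
        (tendsto_id.const_mul_atTop' (by norm_num))

theorem summ_lam {t : ℝ} (ht : 0 ≤ t) : Summable fun r : ℕ => lam t r :=
  Summable.of_norm_bounded ((summ_u t).mul_left (GM t)) fun r => lam_le ht le_rfl r

/-- the sum -/
noncomputable def HH (t : ℝ) : ℝ := ∑' r : ℕ, lam t r

theorem lam_A (t : ℝ) (r : ℕ) : lam (2 * t) r = (2 ^ r - t) * lam t r := by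
  unfold lam
  have h1 := gx_two (t / 2 ^ r)
  have h2 : 2 * t / 2 ^ r = 2 * (t / 2 ^ r) := by ring
  rw [h2, h1, mul_pow]
  field_simp

theorem ij_succ (r : ℕ) : ij (r + 1) (2 ^ (r + 1)) = (2 ^ (r + 1) - 1) * (2 ^ r * ij r (2 ^ r)) := by
  unfold ij
  rw [Finset.prod_range_succ']
  have e : ∀ i ∈ range r, ((2 : ℝ) ^ (r + 1) - 2 ^ (i + 1)) = 2 * (2 ^ r - 2 ^ i) := by
    intro i _
    rw [pow_succ, pow_succ]
    ring
  rw [Finset.prod_congr rfl e, Finset.prod_mul_distrib, prod_const, card_range, pow_zero]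
  ring

theorem lam_B (t : ℝ) (r : ℕ) : (2 ^ (r + 1) - 1) * lam (2 * t) (r + 1) = 2 * t * lam t r := by
  unfold lam
  have h2 : 2 * t / 2 ^ (r + 1) = t / 2 ^ r := by
    rw [pow_succ]
    field_simp
  have h3 := pm1 r
  have h4 : ij r (2 ^ r) ≠ 0 := by
    have h5 := ij_ge r
    have h6 : (0 : ℝ) < 2 ^ (r * (r - 1)) := by positivity
    linarith
  have h5 : (2 : ℝ) ^ (r + 1) - 1 ≠ 0 := by linarith
  rw [h2, ij_succ, mul_pow, pow_succ t, pow_succ (2 : ℝ) r]
  rw [pow_succ] at h5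
  field_simp

theorem HH_rec {t : ℝ} (ht : 0 ≤ t) :
    HH (2 * (2 * t)) - HH (2 * t) = -(2 * t) * (HH (2 * t) - HH t) := by
  have s1 := summ_lam ht
  have s2 := summ_lam (t := 2 * t) (by positivity)
  have s4 := summ_lam (t := 2 * (2 * t)) (by positivity)
  -- the sum of `2 ^ r lam (2 t) r`
  have e1 : ∀ r, (2 : ℝ) ^ r * lam (2 * t) r = lam (2 * (2 * t)) r + 2 * t * lam (2 * t) r := by
    intro r
    rw [lam_A (2 * t)]
    ring
  have s3 : Summable fun r : ℕ => (2 : ℝ) ^ r * lam (2 * t) r := by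
    simp only [e1]
    exact s4.add (s2.mul_left _)
  have e2 : ∑' r : ℕ, (2 : ℝ) ^ r * lam (2 * t) r = HH (2 * (2 * t)) + 2 * t * HH (2 * t) := by
    simp only [e1]
    rw [s4.tsum_add (s2.mul_left _), tsum_mul_left]
    rfl
  have e3 : ∑' r : ℕ, ((2 : ℝ) ^ r * lam (2 * t) r - lam (2 * t) r) = 2 * t * HH t := by
    rw [(s3.sub s2).tsum_eq_zero_add]
    have h5 : ∀ r : ℕ, (2 : ℝ) ^ (r + 1) * lam (2 * t) (r + 1) - lam (2 * t) (r + 1) =
        2 * t * lam t r := by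
      intro r
      rw [← lam_B]
      ring
    simp only [h5, pow_zero, one_mul, sub_self, zero_add]
    rw [tsum_mul_left]
    rfl
  rw [s3.tsum_sub s2, e2] at e3
  have h6 : ∑' r : ℕ, lam (2 * t) r = HH (2 * t) := rfl
  rw [h6] at e3
  linarith

/-- a bound for the sum -/
theorem HH_bd {t T : ℝ} (ht : 0 ≤ t) (h : t ≤ T) :
    |HH t| ≤ GM T * ∑' r : ℕ, T ^ r / 2 ^ (r * (r - 1)) := by
  have h1 : ∀ r : ℕ, ‖lam t r‖ ≤ GM T * (T ^ r / 2 ^ (r * (r - 1))) := by
    intro r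
    refine (lam_le ht h r).trans (mul_le_mul_of_nonneg_left ?_ (GM_nonneg (ht.trans h)))
    exact div_le_div_of_nonneg_right (pow_le_pow_left₀ ht h r) (by positivity)
  rw [← Real.norm_eq_abs, ← tsum_mul_left]
  exact tsum_of_norm_bounded ((summ_u T).mul_left _).hasSum h1

theorem HH_near {t : ℝ} (ht : 0 ≤ t) (h : t ≤ 1) : |HH t - 1| ≤
    t * (∑' j : ℕ, cf j + GM 1 * ∑' r : ℕ, (1 : ℝ) ^ r / 2 ^ (r * (r - 1))) := by
  have h1 : HH t - 1 = (gx t - 1) + ∑' r : ℕ, lam t (r + 1) := by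
    unfold HH
    rw [(summ_lam ht).tsum_eq_zero_add]
    have : lam t 0 = gx t := by
      unfold lam
      simp [ij]
    rw [this]
    ring
  have h2 : |∑' r : ℕ, lam t (r + 1)| ≤ t * (GM 1 * ∑' r : ℕ, (1 : ℝ) ^ r / 2 ^ (r * (r - 1))) := by
    have h3 : ∀ r : ℕ, ‖lam t (r + 1)‖ ≤ t * (GM 1 * ((1 : ℝ) ^ (r + 1) /
        2 ^ ((r + 1) * (r + 1 - 1)))) := by
      intro r
      refine (lam_le ht h (r + 1)).trans ?_
      have h4 : t ^ (r + 1) ≤ t := by
        rw [pow_succ]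
        exact mul_le_of_le_one_left ht (pow_le_one₀ ht h)
      have h5 : t ^ (r + 1) / 2 ^ ((r + 1) * (r + 1 - 1)) ≤
          t * ((1 : ℝ) ^ (r + 1) / 2 ^ ((r + 1) * (r + 1 - 1))) := by
        rw [one_pow, mul_one_div]
        exact div_le_div_of_nonneg_right h4 (by positivity)
      have h6 := mul_le_mul_of_nonneg_left h5 (GM_nonneg zero_le_one)
      linarith
    have s1 : Summable fun r : ℕ => (1 : ℝ) ^ (r + 1) / 2 ^ ((r + 1) * (r + 1 - 1)) :=
      (summable_nat_add_iff 1).2 (summ_u 1)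
    have h7 : |∑' r : ℕ, lam t (r + 1)| ≤ ∑' r : ℕ, t * (GM 1 * ((1 : ℝ) ^ (r + 1) /
        2 ^ ((r + 1) * (r + 1 - 1)))) := by
      rw [← Real.norm_eq_abs]
      exact tsum_of_norm_bounded ((s1.mul_left _).mul_left _).hasSum h3
    refine h7.trans ?_
    rw [tsum_mul_left, tsum_mul_left]
    refine mul_le_mul_of_nonneg_left (mul_le_mul_of_nonneg_left ?_ (GM_nonneg zero_le_one)) ht
    rw [(summ_u 1).tsum_eq_zero_add]
    simp only [pow_zero, one_pow]
    have : (0 : ℝ) ≤ 1 / 2 ^ (0 * (0 - 1)) := by positivity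
    linarith
  rw [h1, mul_add]
  exact (abs_add_le _ _).trans (add_le_add (gx_near ht h) h2)

/-- the differences vanish -/
theorem HH_two {t : ℝ} (ht : 0 ≤ t) : HH (2 * t) = HH t := by
  -- for small `t`
  obtain ⟨K, hK⟩ : ∃ K : ℝ, ∀ s : ℝ, 0 ≤ s → s ≤ 1 → |HH s| ≤ K := ⟨_, fun s h0 h1 => HH_bd h0 h1⟩
  have h1 : ∀ n : ℕ, ∀ s : ℝ, 0 ≤ s → s ≤ 1 / 2 → |HH (2 * s) - HH s| ≤ 2 * K / 2 ^ n := by
    intro n
    induction n with
    | zero =>
      intro s h0 h2
      rw [pow_zero, div_one]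
      have h3 := hK (2 * s) (by linarith) (by linarith)
      have h4 := hK s h0 (by linarith)
      rw [abs_le] at h3 h4 ⊢
      constructor <;> linarith
    | succ n ih =>
      intro s h0 h2
      have h3 := HH_rec (t := s / 2) (by linarith)
      have e : 2 * (s / 2) = s := by ring
      rw [e] at h3
      have h4 := ih (s / 2) (by linarith) (by linarith)
      rw [e] at h4
      rw [h3, abs_mul, abs_neg, abs_of_nonneg h0]
      have h5 : (0 : ℝ) ≤ 2 * K / 2 ^ n := (abs_nonneg _).trans h4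
      calc s * |HH s - HH (s / 2)| ≤ (1 / 2) * (2 * K / 2 ^ n) := mul_le_mul h2 h4 (abs_nonneg _)
            (by norm_num)
        _ = 2 * K / 2 ^ (n + 1) := by
          rw [pow_succ]
          field_simp
  have h2 : ∀ s : ℝ, 0 ≤ s → s ≤ 1 / 2 → HH (2 * s) = HH s := by
    intro s h0 h3
    have h4 : Tendsto (fun n : ℕ => 2 * K / 2 ^ n) atTop (𝓝 0) :=
      tendsto_const_nhds.div_atTop (tendsto_pow_atTop_atTop_of_one_lt (by norm_num))
    have h5 : |HH (2 * s) - HH s| ≤ 0 := ge_of_tendsto' h4 fun n => h1 n s h0 h3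
    have h6 := abs_nonpos_iff.1 h5
    linarith
  have h3 : ∀ n : ℕ, ∀ s : ℝ, 0 ≤ s → s ≤ 1 / 2 * 2 ^ n → HH (2 * s) = HH s := by
    intro n
    induction n with
    | zero =>
      intro s h0 h3
      exact h2 s h0 (by linarith)
    | succ n ih =>
      intro s h0 h4
      have h5 := HH_rec (t := s / 2) (by linarith)
      have e : 2 * (s / 2) = s := by ring
      rw [e] at h5
      have h6 := ih (s / 2) (by linarith) (by
        rw [pow_succ] at h4
        linarith)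
      rw [e] at h6
      rw [h6, sub_self, mul_zero] at h5
      linarith
  obtain ⟨n, hn⟩ := pow_unbounded_of_one_lt (2 * t) (show (1 : ℝ) < 2 by norm_num)
  exact h3 n t ht (by linarith)

/-- **the sum of the law** -/
theorem HH_one {t : ℝ} (ht : 0 ≤ t) : HH t = 1 := by
  have h1 : ∀ n : ℕ, HH t = HH (t / 2 ^ n) := by
    intro n
    induction n with
    | zero => rw [pow_zero, div_one]
    | succ n ih =>
      rw [ih, ← HH_two (t := t / 2 ^ (n + 1)) (by positivity)]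
      congr 1
      rw [pow_succ]
      field_simp
  have h2 : Tendsto (fun n : ℕ => t / 2 ^ n) atTop (𝓝 0) :=
    tendsto_const_nhds.div_atTop (tendsto_pow_atTop_atTop_of_one_lt (by norm_num))
  set K : ℝ := ∑' j : ℕ, cf j + GM 1 * ∑' r : ℕ, (1 : ℝ) ^ r / 2 ^ (r * (r - 1)) with hK
  have h3 : ∀ᶠ n : ℕ in atTop, |HH t - 1| ≤ t / 2 ^ n * K := by
    filter_upwards [h2.eventually (gt_mem_nhds one_pos)] with n hn
    rw [h1 n]
    exact HH_near (by positivity) hn.le
  have h4 : Tendsto (fun n : ℕ => t / 2 ^ n * K) atTop (𝓝 0) := by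
    have := h2.mul_const K
    rwa [zero_mul] at this
  have h5 : |HH t - 1| ≤ 0 := ge_of_tendsto h4 h3
  have h6 := abs_nonpos_iff.1 h5
  linarith

/-- **the tails** -/
theorem lam_tail {t : ℝ} (ht : 0 ≤ t) : ∃ C : ℝ, 0 < C ∧ ∀ R : ℕ,
    |1 - ∑ r ∈ range (R + 1), lam t r| ≤ C * t ^ (R + 1) / 2 ^ ((R + 1) * R) := by
  set S : ℝ := ∑' k : ℕ, t ^ k / 2 ^ (k * (k - 1)) with hS
  have hS0 : 0 ≤ S := tsum_nonneg fun k => by positivity
  refine ⟨GM t * S + 1, by have := GM_nonneg ht; positivity, fun R => ?_⟩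
  have h1 : 1 - ∑ r ∈ range (R + 1), lam t r = ∑' k : ℕ, lam t (k + (R + 1)) := by
    have h2 := (summ_lam ht).sum_add_tsum_nat_add (R + 1)
    have h3 : ∑' r : ℕ, lam t r = 1 := HH_one ht
    rw [h3] at h2
    linarith
  have h2 : ∀ k : ℕ, ‖lam t (k + (R + 1))‖ ≤ GM t * (t ^ (R + 1) / 2 ^ ((R + 1) * R)) *
      (t ^ k / 2 ^ (k * (k - 1))) := by
    intro k
    refine (lam_le ht le_rfl _).trans ?_
    rw [mul_assoc]
    refine mul_le_mul_of_nonneg_left ?_ (GM_nonneg ht)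
    rw [div_mul_div_comm, ← pow_add, ← pow_add, add_comm (R + 1) k]
    refine div_le_div_of_nonneg_left (pow_nonneg ht _) (by positivity)
      (pow_le_pow_right₀ (by norm_num) ?_)
    have h3 : (k + (R + 1)) * (k + (R + 1) - 1) = (k + (R + 1)) * (k + R) := by
      congr 1
    rw [h3]
    have h4 : k * (k - 1) ≤ k * k := Nat.mul_le_mul_left _ (Nat.sub_le _ _)
    nlinarith
  have h3 : |∑' k : ℕ, lam t (k + (R + 1))| ≤ GM t * (t ^ (R + 1) / 2 ^ ((R + 1) * R)) * S := by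
    rw [← Real.norm_eq_abs, hS, ← tsum_mul_left]
    exact tsum_of_norm_bounded ((summ_u t).mul_left _).hasSum h2
  rw [h1]
  refine h3.trans ?_
  have h4 : (0 : ℝ) ≤ t ^ (R + 1) / 2 ^ ((R + 1) * R) := by positivity
  have h5 : GM t * (t ^ (R + 1) / 2 ^ ((R + 1) * R)) * S =
      (GM t * S) * (t ^ (R + 1) / 2 ^ ((R + 1) * R)) := by ring
  rw [h5, mul_div_assoc]
  exact mul_le_mul_of_nonneg_right (by linarith) h4

end Q44.BC
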