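import Pool.Agent.Q82.BC.Stm

/-!
# Project BC: job CVB2 (the convolution)
-/

set_option autoImplicit false

open MeasureTheory Filter Topology Set

namespace Pool.Agent.Q44.BC

open Pool.Agent.Q82.BC

theorem int_sq (a : ℝ) (ha : 0 < a) : ∫ x : ℝ, x ^ 2 * Real.exp (-(a * |x|)) = 4 / a ^ 3 := by
  have h1 : ∫ x : ℝ, x ^ 2 * Real.exp (-(a * |x|)) =
      ∫ x : ℝ, (fun y : ℝ => y ^ 2 * Real.exp (-(a * y))) |x| := by
    refine integral_congr_ae (Eventually.of_forall fun x => ?_)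
    simp only [sq_abs]
  rw [h1, integral_comp_abs (f := fun y : ℝ => y ^ 2 * Real.exp (-(a * y)))]
  have h2 := Real.integral_rpow_mul_exp_neg_mul_Ioi (a := 3) (r := a) (by norm_num) ha
  have h3 : ∫ t : ℝ in Ioi 0, t ^ ((3 : ℝ) - 1) * Real.exp (-(a * t)) =
      ∫ t : ℝ in Ioi 0, t ^ 2 * Real.exp (-(a * t)) := by
    refine setIntegral_congr_fun measurableSet_Ioi fun t _ => ?_
    have : t ^ ((3 : ℝ) - 1) = t ^ (2 : ℕ) := by
      rw [← Real.rpow_natCast]
      norm_num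
    simp only [this]
  rw [← h3, h2]
  have h4 : Real.Gamma 3 = 2 := by
    have := Real.Gamma_nat_eq_factorial 2
    rw [show (3 : ℝ) = ((2 : ℕ) : ℝ) + 1 by norm_num, this]
    norm_num [Nat.factorial]
  have h5 : (1 / a) ^ (3 : ℝ) = 1 / a ^ 3 := by
    rw [show (3 : ℝ) = ((3 : ℕ) : ℝ) by norm_num, Real.rpow_natCast, one_div, inv_pow, one_div]
  rw [h4, h5]
  ring

theorem integrable_sq (a : ℝ) (ha : 0 < a) :
    Integrable fun x : ℝ => x ^ 2 * Real.exp (-(a * |x|)) := by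
  by_contra h
  have h1 := integral_undef h
  rw [int_sq a ha] at h1
  have : 0 < 4 / a ^ 3 := by positivity
  exact this.ne' h1

theorem cvb2 : S_CVB2 := by
  refine ⟨65536, by norm_num, fun f g A B τ hτ hA hB hf hg hfb hgb ξ => ?_⟩
  have hsq : 0 < Real.sqrt τ := Real.sqrt_pos.2 hτ
  obtain ⟨a, ha⟩ : ∃ a : ℝ, a = Real.sqrt τ / 16 := ⟨_, rfl⟩
  have ha0 : 0 < a := by rw [ha]; positivity
  have her : ∀ x, er x τ = Real.exp (-(a * |x|)) := by
    intro x
    unfold er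
    rw [ha]
    congr 1
    ring
  obtain ⟨R, hR⟩ : ∃ R : ℝ, R = 2 * |ξ| + 1 := ⟨_, rfl⟩
  have hξ0 : 0 ≤ |ξ| := abs_nonneg ξ
  have hR0 : 0 ≤ R := by rw [hR]; linarith
  obtain ⟨G, hG⟩ : ∃ G : ℝ → ℝ, G = fun η => A * B * er ξ τ *
      (6 * (1 + |ξ|) ^ 2 * (Icc (-R) R).indicator (fun _ => (1 : ℝ)) η +
        4 * (η ^ 2 * Real.exp (-(a * |η|)))) := ⟨_, rfl⟩
  have hind : Integrable ((Icc (-R) R).indicator (fun _ => (1 : ℝ))) := by
    rw [integrable_indicator_iff measurableSet_Icc]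
    exact integrableOn_const (by simp)
  have hindv : ∫ η, (Icc (-R) R).indicator (fun _ => (1 : ℝ)) η = 2 * R := by
    rw [integral_indicator measurableSet_Icc, setIntegral_const, smul_eq_mul, mul_one,
      Real.volume_real_Icc_of_le (by linarith)]
    ring
  have hGi : Integrable G := by
    rw [hG]
    exact ((hind.const_mul _).add ((integrable_sq a ha0).const_mul 4)).const_mul _
  have hGv : ∫ η, G η = A * B * er ξ τ * (6 * (1 + |ξ|) ^ 2 * (2 * R) + 4 * (4 / a ^ 3)) := by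
    rw [hG, integral_const_mul, integral_add (hind.const_mul _)
      ((integrable_sq a ha0).const_mul 4), integral_const_mul, integral_const_mul, hindv,
      int_sq a ha0]
  have key : ∀ η, ‖f η * g (ξ - η)‖ ≤ G η := by
    intro η
    have hη0 : 0 ≤ |η| := abs_nonneg η
    have hd0 : 0 ≤ |ξ - η| := abs_nonneg _
    have htri : |ξ| ≤ |η| + |ξ - η| := by
      have := abs_add_le η (ξ - η)
      rwa [add_sub_cancel] at this
    have htri2 : |ξ - η| ≤ |ξ| + |η| := abs_sub _ _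
    have htri3 : |η| ≤ |ξ| + |ξ - η| := by
      have h := abs_sub ξ (ξ - η)
      rwa [sub_sub_cancel] at h
    have h1 : ‖f η * g (ξ - η)‖ ≤ A * B * (((1 + |η|) * (1 + |ξ - η|)) *
        Real.exp (-(a * (|η| + |ξ - η|)))) := by
      rw [norm_mul]
      calc ‖f η‖ * ‖g (ξ - η)‖ ≤ (A * ((1 + |η|) * er η τ)) * (B * ((1 + |ξ - η|) * er (ξ - η) τ)) :=
            mul_le_mul (hfb η) (hgb _) (norm_nonneg _) ((norm_nonneg _).trans (hfb η))
        _ = _ := by
          rw [her, her, show -(a * (|η| + |ξ - η|)) = -(a * |η|) + -(a * |ξ - η|) by ring,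
            Real.exp_add]
          ring
    refine h1.trans ?_
    rw [hG]
    simp only
    rw [mul_assoc (A * B)]
    refine mul_le_mul_of_nonneg_left ?_ (mul_nonneg hA hB)
    rw [her]
    by_cases hm : η ∈ Icc (-R) R
    · rw [indicator_of_mem hm]
      have hm2 : |η| ≤ R := abs_le.2 hm
      have e1 : Real.exp (-(a * (|η| + |ξ - η|))) ≤ Real.exp (-(a * |ξ|)) := by
        apply Real.exp_le_exp.2
        nlinarith
      have e2 : (1 + |η|) * (1 + |ξ - η|) ≤ 6 * (1 + |ξ|) ^ 2 := by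
        have e3 : 1 + |η| ≤ 2 * (1 + |ξ|) := by linarith
        have e4 : 1 + |ξ - η| ≤ 3 * (1 + |ξ|) := by linarith
        calc (1 + |η|) * (1 + |ξ - η|) ≤ (2 * (1 + |ξ|)) * (3 * (1 + |ξ|)) :=
              mul_le_mul e3 e4 (by linarith) (by linarith)
          _ = _ := by ring
      calc (1 + |η|) * (1 + |ξ - η|) * Real.exp (-(a * (|η| + |ξ - η|))) ≤
            6 * (1 + |ξ|) ^ 2 * Real.exp (-(a * |ξ|)) :=
            mul_le_mul e2 e1 (Real.exp_pos _).le (by positivity)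
        _ ≤ Real.exp (-(a * |ξ|)) * (6 * (1 + |ξ|) ^ 2 * 1 +
            4 * (η ^ 2 * Real.exp (-(a * |η|)))) := by
          have : 0 ≤ Real.exp (-(a * |ξ|)) * (4 * (η ^ 2 * Real.exp (-(a * |η|)))) := by positivity
          linarith
    · rw [indicator_of_notMem hm]
      have hm2 : R < |η| := by
        by_contra h
        exact hm (abs_le.1 (not_lt.1 h))
      have e1 : Real.exp (-(a * (|η| + |ξ - η|))) ≤ Real.exp (-(a * |ξ|)) * Real.exp (-(a * |η|)) := by
        rw [← Real.exp_add]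
        apply Real.exp_le_exp.2
        have : |ξ| + |η| ≤ |η| + |ξ - η| := by linarith
        nlinarith
      have e2 : (1 + |η|) * (1 + |ξ - η|) ≤ 4 * η ^ 2 := by
        have e3 : 1 + |η| ≤ 2 * |η| := by linarith
        have e4 : 1 + |ξ - η| ≤ 2 * |η| := by linarith
        calc (1 + |η|) * (1 + |ξ - η|) ≤ (2 * |η|) * (2 * |η|) :=
              mul_le_mul e3 e4 (by linarith) (by linarith)
          _ = 4 * |η| ^ 2 := by ring
          _ = 4 * η ^ 2 := by rw [sq_abs]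
      calc (1 + |η|) * (1 + |ξ - η|) * Real.exp (-(a * (|η| + |ξ - η|))) ≤
            4 * η ^ 2 * (Real.exp (-(a * |ξ|)) * Real.exp (-(a * |η|))) :=
            mul_le_mul e2 e1 (Real.exp_pos _).le (by positivity)
        _ = _ := by ring
  have hcont : Continuous fun η => f η * g (ξ - η) :=
    hf.mul (hg.comp (continuous_const.sub continuous_id))
  have hint : Integrable fun η => f η * g (ξ - η) :=
    hGi.mono' hcont.aestronglyMeasurable (Eventually.of_forall key)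
  refine ⟨hint, ?_⟩
  have h6 : ‖∫ η, f η * g (ξ - η)‖ ≤ ∫ η, G η :=
    norm_integral_le_of_norm_le hGi (Eventually.of_forall key)
  refine h6.trans ?_
  rw [hGv]
  have ha3 : 4 / a ^ 3 = 16384 * (τ * Real.sqrt τ)⁻¹ := by
    have h7 : a ^ 3 = (τ * Real.sqrt τ) / 4096 := by
      rw [ha]
      have : Real.sqrt τ ^ 2 = τ := Real.sq_sqrt hτ.le
      calc (Real.sqrt τ / 16) ^ 3 = (Real.sqrt τ ^ 2 * Real.sqrt τ) / 4096 := by ring
        _ = _ := by rw [this]
    rw [h7]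
    have : τ * Real.sqrt τ ≠ 0 := (mul_pos hτ hsq).ne'
    field_simp
    norm_num
  rw [ha3]
  have hAB : 0 ≤ A * B * er ξ τ := by
    rw [her]
    exact mul_nonneg (mul_nonneg hA hB) (Real.exp_pos _).le
  have h8 : 6 * (1 + |ξ|) ^ 2 * (2 * R) + 4 * (16384 * (τ * Real.sqrt τ)⁻¹) ≤
      65536 * ((1 + |ξ|) ^ 3 + (τ * Real.sqrt τ)⁻¹) := by
    have h9 : 6 * (1 + |ξ|) ^ 2 * (2 * R) ≤ 65536 * (1 + |ξ|) ^ 3 := by
      have h10 : 2 * R ≤ 4 * (1 + |ξ|) := by rw [hR]; linarith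
      calc 6 * (1 + |ξ|) ^ 2 * (2 * R) ≤ 6 * (1 + |ξ|) ^ 2 * (4 * (1 + |ξ|)) :=
            mul_le_mul_of_nonneg_left h10 (by positivity)
        _ = 24 * (1 + |ξ|) ^ 3 := by ring
        _ ≤ _ := mul_le_mul_of_nonneg_right (by norm_num) (by positivity)
    linarith
  calc A * B * er ξ τ * (6 * (1 + |ξ|) ^ 2 * (2 * R) + 4 * (16384 * (τ * Real.sqrt τ)⁻¹)) ≤
        A * B * er ξ τ * (65536 * ((1 + |ξ|) ^ 3 + (τ * Real.sqrt τ)⁻¹)) :=
        mul_le_mul_of_nonneg_left h8 hAB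
    _ = _ := by ring

end Pool.Agent.Q44.BC
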