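import Pool.Agent.Q44.BC.LA2
import Pool.Agent.Y219.CQ.LA

/-!
# The block systems
-/

set_option autoImplicit false

open scoped Classical

namespace Q44.BC

open Finset Module
open Pool.Agent.Y697.PP (Sy Nd YY mem_YY)
open Pool.Agent.Y697.PQ
open Pool.Agent.Y703.CQ (prs)
open Pool.Agent.Y219.CQ (bf bf_apply bf_l bf_symm mL mL_symm pa pa_surj)

/-- a map which respects the addition -/
noncomputable def lm {M N : Type} [AddCommGroup M] [Module (ZMod 2) M] [AddCommGroup N]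
    [Module (ZMod 2) N] (f : M → N) (h : ∀ a b, f (a + b) = f a + f b) : M →ₗ[ZMod 2] N :=
  AddMonoidHom.toZModLinearMap 2 (AddMonoidHom.mk' f h)

theorem lm_apply {M N : Type} [AddCommGroup M] [Module (ZMod 2) M] [AddCommGroup N]
    [Module (ZMod 2) N] (f : M → N) (h : ∀ a b, f (a + b) = f a + f b) (x : M) :
    lm f h x = f x := rfl

/-- the data -/
structure Dt (U J G F : Type) [AddCommGroup G] [Module (ZMod 2) G] [AddCommGroup F]
    [Module (ZMod 2) F] where
  J1 : Finset J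
  A : U → U → ZMod 2
  B : U → J → ZMod 2
  C : J → U → ZMod 2
  f : U → ZMod 2
  g : J → ZMod 2
  hU : U → F
  hJ : J → F
  v : F →ₗ[ZMod 2] ZMod 2
  χ : G →ₗ[ZMod 2] F →ₗ[ZMod 2] ZMod 2
  𝓛 : Submodule (ZMod 2) (G × F)

variable {U J G F : Type} [Fintype U] [Fintype J] [LinearOrder J] [AddCommGroup G]
  [Module (ZMod 2) G] [AddCommGroup F] [Module (ZMod 2) F]

/-- the space of the unknowns -/
abbrev Dt.E (D : Dt U J G F) : Type := (U → ZMod 2) × (D.J1 → ZMod 2) × G

/-- the sum of the classes -/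
noncomputable def Dt.sH (D : Dt U J G F) : D.E →ₗ[ZMod 2] F :=
  lm (fun w => ∑ u, w.1 u • D.hU u + ∑ k : D.J1, w.2.1 k • D.hJ k) (by
    intro a b
    simp only [Prod.fst_add, Prod.snd_add, Pi.add_apply, add_smul, sum_add_distrib]
    abel)

/-- the rows of the first block -/
noncomputable def Dt.rU (D : Dt U J G F) : D.E →ₗ[ZMod 2] (U → ZMod 2) :=
  lm (fun w u => ∑ v, D.A u v * (w.1 v + w.1 u) + ∑ k : D.J1, D.B u k * (w.2.1 k + w.1 u) +
    D.f u * w.1 u + D.χ w.2.2 (D.hU u)) (by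
    intro a b
    funext u
    simp only [Prod.fst_add, Prod.snd_add, Pi.add_apply, map_add, LinearMap.add_apply, mul_add,
      sum_add_distrib]
    ring)

/-- the constant part of the rows of the second block -/
noncomputable def Dt.rJ (D : Dt U J G F) : D.E →ₗ[ZMod 2] (D.J1 → ZMod 2) :=
  lm (fun w k => ∑ u, D.C k u * (w.1 u + w.2.1 k) +
    ∑ l : D.J1, (if (l : J) < k then D.v (D.hJ k) * D.v (D.hJ l) else 0) * (w.2.1 l + w.2.1 k) +
    D.g k * w.2.1 k + D.χ w.2.2 (D.hJ k)) (by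
    intro a b
    funext u
    simp only [Prod.fst_add, Prod.snd_add, Pi.add_apply, map_add, LinearMap.add_apply, mul_add,
      sum_add_distrib]
    ring)

/-- the solutions of the equations without random coefficients -/
noncomputable def Dt.NN (D : Dt U J G F) : Submodule (ZMod 2) D.E :=
  Submodule.comap ((LinearMap.snd (ZMod 2) _ _ ∘ₗ LinearMap.snd (ZMod 2) _ _).prod D.sH) D.𝓛 ⊓
    LinearMap.ker D.rU

theorem Dt.mem_NN {D : Dt U J G F} {w : D.E} :
    w ∈ D.NN ↔ (w.2.2, D.sH w) ∈ D.𝓛 ∧ D.rU w = 0 := Iff.rfl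

/-- the scalar product -/
noncomputable def dp (κ : Type) [Fintype κ] : (κ → ZMod 2) →ₗ[ZMod 2] (κ → ZMod 2) →ₗ[ZMod 2] ZMod 2 :=
  bf fun i k => if i = k then 1 else 0

theorem dp_apply {κ : Type} [Fintype κ] (x y : κ → ZMod 2) : dp κ x y = ∑ i, x i * y i := by
  unfold dp
  rw [bf_apply]
  refine sum_congr rfl fun i _ => ?_
  rw [sum_eq_single i]
  · rw [if_pos rfl, mul_one]
  · intro k _ hk
    rw [if_neg hk.symm, mul_zero, zero_mul]
  · intro h
    exact absurd (mem_univ i) h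

theorem dp_eq {κ : Type} [Fintype κ] {x y : κ → ZMod 2} (h : dp κ x = dp κ y) : x = y := by
  funext i
  have h1 := LinearMap.congr_fun h (Pi.single i 1)
  rw [dp_apply, dp_apply, sum_eq_single i, sum_eq_single i] at h1
  · simpa using h1
  · intro k _ hk
    rw [Pi.single_eq_of_ne hk, mul_zero]
  · intro h
    exact absurd (mem_univ i) h
  · intro k _ hk
    rw [Pi.single_eq_of_ne hk, mul_zero]
  · intro h
    exact absurd (mem_univ i) h

/-- the projection -/
noncomputable def Dt.π (D : Dt U J G F) : D.NN →ₗ[ZMod 2] (D.J1 → ZMod 2) :=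
  LinearMap.fst (ZMod 2) _ _ ∘ₗ LinearMap.snd (ZMod 2) _ _ ∘ₗ D.NN.subtype

theorem Dt.π_apply (D : Dt U J G F) (w : D.NN) : D.π w = w.1.2.1 := rfl

/-- the constant part -/
noncomputable def Dt.z (D : Dt U J G F) : D.NN →ₗ[ZMod 2] (D.J1 → ZMod 2) →ₗ[ZMod 2] ZMod 2 :=
  dp D.J1 ∘ₗ D.rJ ∘ₗ D.NN.subtype

theorem Dt.z_apply (D : Dt U J G F) (w : D.NN) : D.z w = dp D.J1 (D.rJ w.1) := rfl

/-- the solutions -/
def Dt.So (D : Dt U J G F) (α : prs D.J1 → ZMod 2) : Submodule (ZMod 2) D.E where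
  carrier := {w | w ∈ D.NN ∧ ∀ k : D.J1, D.rJ w k +
    (∑ l : D.J1, Pool.Agent.Y703.CQ.ext α k l * w.2.1 l +
      (∑ l : J, Pool.Agent.Y703.CQ.ext α k l) * w.2.1 k) = 0}
  add_mem' := by
    rintro a b ⟨h1, h2⟩ ⟨h3, h4⟩
    refine ⟨Submodule.add_mem _ h1 h3, fun k => ?_⟩
    have e : ∑ l : D.J1, Pool.Agent.Y703.CQ.ext α k l * (a + b).2.1 l =
        ∑ l : D.J1, Pool.Agent.Y703.CQ.ext α k l * a.2.1 l +
        ∑ l : D.J1, Pool.Agent.Y703.CQ.ext α k l * b.2.1 l := by
      rw [← sum_add_distrib]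
      refine sum_congr rfl fun l _ => ?_
      rw [Prod.snd_add, Prod.fst_add, Pi.add_apply, mul_add]
    rw [e, map_add, Pi.add_apply, Prod.snd_add, Prod.fst_add, Pi.add_apply]
    linear_combination h2 k + h4 k
  zero_mem' := by
    refine ⟨Submodule.zero_mem _, fun k => ?_⟩
    rw [map_zero]
    simp
  smul_mem' := by
    rintro c a ⟨h1, h2⟩
    refine ⟨Submodule.smul_mem _ _ h1, fun k => ?_⟩
    have e : ∑ l : D.J1, Pool.Agent.Y703.CQ.ext α k l * (c • a).2.1 l =
        c * ∑ l : D.J1, Pool.Agent.Y703.CQ.ext α k l * a.2.1 l := by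
      rw [mul_sum]
      refine sum_congr rfl fun l _ => ?_
      rw [Prod.smul_snd, Prod.smul_fst, Pi.smul_apply, smul_eq_mul]
      ring
    rw [e, map_smul, Pi.smul_apply, Prod.smul_snd, Prod.smul_fst, Pi.smul_apply, smul_eq_mul,
      smul_eq_mul]
    linear_combination c * h2 k

/-- the coefficients of the form -/
theorem sum_mL (J1 : Finset J) (α : prs J1 → ZMod 2) (y : J1 → ZMod 2) (k : J1) :
    ∑ i, y i * mL J1 α i k = ∑ l : J1, Pool.Agent.Y703.CQ.ext α k l * y l +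
      (∑ l : J, Pool.Agent.Y703.CQ.ext α k l) * y k := by
  unfold mL
  simp only [mul_add, sum_add_distrib]
  congr 1
  · exact sum_congr rfl fun u _ => by
      rw [Pool.Agent.Y219.CQ.ext_symm J1 α u.2 k.2, mul_comm]
  · rw [sum_eq_single k]
    · rw [if_pos rfl, mul_comm]
    · intro u _ hu
      rw [if_neg hu, mul_zero]
    · intro h
      exact absurd (mem_univ _) h

theorem Dt.finrank_So (D : Dt U J G F) (α : prs D.J1 → ZMod 2) :
    finrank (ZMod 2) (D.So α) = finrank (ZMod 2) (Kr D.π D.z (pa D.J1 α).1) := by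
  have h1 : D.So α = (Kr D.π D.z (pa D.J1 α).1).map D.NN.subtype := by
    ext w
    rw [Submodule.mem_map]
    have key : ∀ hw : w ∈ D.NN, (⟨w, hw⟩ : D.NN) ∈ Kr D.π D.z (pa D.J1 α).1 ↔
        ∀ k : D.J1, D.rJ w k + (∑ l : D.J1, Pool.Agent.Y703.CQ.ext α k l * w.2.1 l +
          (∑ l : J, Pool.Agent.Y703.CQ.ext α k l) * w.2.1 k) = 0 := by
      intro hw
      have e1 : (pa D.J1 α).1 (D.π ⟨w, hw⟩) = dp D.J1 (fun k => ∑ i, w.2.1 i * mL D.J1 α i k) := by
        refine LinearMap.ext fun y' => ?_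
        rw [dp_apply]
        show bf (mL D.J1 α) w.2.1 y' = _
        rw [bf_l]
      rw [mem_Kr, e1, D.z_apply]
      constructor
      · intro h k
        have h2 := congrFun (dp_eq h) k
        simp only at h2
        rw [sum_mL] at h2
        rw [h2]
        exact CharTwo.add_self_eq_zero _
      · intro h
        congr 1
        funext k
        rw [sum_mL]
        exact (eq_of_add (h k)).symm
    constructor
    · rintro ⟨hw, h2⟩
      exact ⟨⟨w, hw⟩, (key hw).2 h2, rfl⟩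
    · rintro ⟨⟨w', hw'⟩, h2, rfl⟩
      refine ⟨hw', ?_⟩
      have key' : ∀ hw : (w' : D.E) ∈ D.NN, (⟨w', hw⟩ : D.NN) ∈ Kr D.π D.z (pa D.J1 α).1 ↔
        ∀ k : D.J1, D.rJ w' k + (∑ l : D.J1, Pool.Agent.Y703.CQ.ext α k l * w'.2.1 l +
          (∑ l : J, Pool.Agent.Y703.CQ.ext α k l) * w'.2.1 k) = 0 := key
      exact (key' hw').1 h2
  rw [h1, Submodule.finrank_map_subtype_eq]

end Q44.BC
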