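import Pool.Agent.Q44.BC.LA4

/-!
# The law of the dimension of the solutions of the block systems
-/

set_option autoImplicit false
set_option linter.unusedSectionVars false

open scoped Classical

namespace Q44.BC

open Finset Module
open Pool.Agent.Y697.PP (Sy Nd YY mem_YY)
open Pool.Agent.Y697.PQ
open Pool.Agent.Y703.CQ (prs)
open Pool.Agent.Y219.CQ (bf bf_apply bf_l bf_symm mL mL_symm pa pa_surj)

variable {U J G F : Type} [Fintype U] [Fintype J] [LinearOrder J] [AddCommGroup G]
  [Module (ZMod 2) G] [AddCommGroup F] [Module (ZMod 2) F]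

/-- the indices with `v = 1` -/
noncomputable def Dt.J3 (D : Dt U J G F) : Finset J := D.J1.filter fun k => D.v (D.hJ k) ≠ 0

/-- the coefficients of the alternating form -/
noncomputable def Dt.c (D : Dt U J G F) (w : D.E) (k : D.J1) : ZMod 2 :=
  ∑ u, D.C k u * w.1 u + D.χ w.2.2 (D.hJ k) +
    D.v (D.hJ k) * (∑ l : D.J1, D.v (D.hJ l) * w.2.1 l + w.2.1 k)

theorem z2c (a : ZMod 2) : a + a = 0 := CharTwo.add_self_eq_zero a

theorem z2m (a : ZMod 2) : a * a = a := by
  revert a
  decide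

/-- the sum over the pairs -/
theorem sum_pairs (J1 : Finset J) (v y y' : J1 → ZMod 2) :
    ∑ k : J1, ∑ l : J1, (if (l : J) < k then v k * v l else 0) * (y l * y' k + y' l * y k) =
      ∑ k : J1, y' k * (v k * (∑ l : J1, v l * y l + y k)) := by
  have h1 : ∑ k : J1, ∑ l : J1, (if (l : J) < k then v k * v l else 0) * (y l * y' k + y' l * y k) =
      ∑ k : J1, ∑ l : J1, (if (l : J) < k then v k * v l else 0) * (y l * y' k) +
      ∑ k : J1, ∑ l : J1, (if (l : J) < k then v k * v l else 0) * (y' l * y k) := by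
    simp only [mul_add, sum_add_distrib]
  have h2 : ∑ k : J1, ∑ l : J1, (if (l : J) < k then v k * v l else 0) * (y' l * y k) =
      ∑ k : J1, ∑ l : J1, (if (k : J) < l then v l * v k else 0) * (y' k * y l) := by
    rw [sum_comm]
  rw [h1, h2, ← sum_add_distrib]
  refine sum_congr rfl fun k _ => ?_
  rw [← sum_add_distrib, mul_add, mul_sum, mul_add, mul_sum]
  have h3 : ∀ l : J1, (if (l : J) < k then v k * v l else 0) * (y l * y' k) +
      (if (k : J) < l then v l * v k else 0) * (y' k * y l) =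
      y' k * (v k * (v l * y l)) + (if l = k then v k * y' k * y k else 0) := by
    intro l
    rcases lt_trichotomy (l : J) k with h | h | h
    · rw [if_pos h, if_neg h.asymm, if_neg (fun h' => h.ne (congrArg Subtype.val h'))]
      ring
    · have h' : l = k := Subtype.ext h
      subst h'
      simp only [lt_irrefl, if_false, if_true, zero_mul, zero_add]
      have e := z2m (v l)
      have e2 := z2c (y' l * (v l * y l))
      linear_combination (-1) * e2 + (-(y' l * y l)) * e
    · rw [if_pos h, if_neg h.asymm, if_neg (fun h' => h.ne' (congrArg Subtype.val h'))]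
      ring
  rw [sum_congr rfl fun l _ => h3 l, sum_add_distrib, sum_ite_eq' univ k, if_pos (mem_univ k)]
  ring

theorem Dt.Om_c (D : Dt U J G F) (w : D.NN) (y' : D.J1 → ZMod 2)
    (hw : ((0, y', 0) : D.E) ∈ D.NN) : Om D.π D.z w ⟨_, hw⟩ = dp D.J1 (D.c w.1) y' := by
  rw [Om_apply, D.z_apply, D.z_apply, D.π_apply, D.π_apply, dp_apply, dp_apply, dp_apply]
  have h1 : ∀ k : D.J1, D.rJ (w : D.E) k * y' k + D.rJ ((0, y', 0) : D.E) k * (w : D.E).2.1 k =
      (∑ u, D.C k u * (w : D.E).1 u + D.χ (w : D.E).2.2 (D.hJ k)) * y' k +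
      ∑ l : D.J1, (if (l : J) < k then D.v (D.hJ k) * D.v (D.hJ l) else 0) *
        ((w : D.E).2.1 l * y' k + y' l * (w : D.E).2.1 k) := by
    intro k
    rw [D.rJ_apply, D.rJ_apply]
    simp only [Pi.zero_apply, zero_add, map_zero, LinearMap.zero_apply, add_zero]
    have e1 : ∑ u, D.C k u * ((w : D.E).1 u + (w : D.E).2.1 k) =
        ∑ u, D.C k u * (w : D.E).1 u + (∑ u, D.C k u) * (w : D.E).2.1 k := by
      rw [sum_mul, ← sum_add_distrib]
      exact sum_congr rfl fun u _ => by ring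
    have e2 : ∑ u, D.C k u * y' k = (∑ u, D.C k u) * y' k := (sum_mul _ _ _).symm
    have e3 : (∑ l : D.J1, (if (l : J) < k then D.v (D.hJ k) * D.v (D.hJ l) else 0) *
        ((w : D.E).2.1 l + (w : D.E).2.1 k)) * y' k +
        (∑ l : D.J1, (if (l : J) < k then D.v (D.hJ k) * D.v (D.hJ l) else 0) *
        (y' l + y' k)) * (w : D.E).2.1 k =
        ∑ l : D.J1, (if (l : J) < k then D.v (D.hJ k) * D.v (D.hJ l) else 0) *
        ((w : D.E).2.1 l * y' k + y' l * (w : D.E).2.1 k) := by
      rw [sum_mul, sum_mul, ← sum_add_distrib]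
      refine sum_congr rfl fun l _ => ?_
      linear_combination (z2c ((if (l : J) < k then D.v (D.hJ k) * D.v (D.hJ l) else 0) *
        ((w : D.E).2.1 k * y' k)))
    rw [e1, e2, ← e3]
    linear_combination z2c ((∑ u, D.C k u) * (w : D.E).2.1 k * y' k) +
      z2c (D.g k * (w : D.E).2.1 k * y' k)
  rw [← sum_add_distrib, sum_congr rfl fun k _ => h1 k, sum_add_distrib,
    sum_pairs D.J1 (fun k => D.v (D.hJ k)) (w : D.E).2.1 y', ← sum_add_distrib]
  refine sum_congr rfl fun k _ => ?_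
  unfold Dt.c
  ring

section fin

variable [Finite G] [Finite F]

/-- the map which gives the conditions -/
noncomputable def Dt.th (D : Dt U J G F) : (D.J1 → ZMod 2) →ₗ[ZMod 2] F × (U → ZMod 2) :=
  lm (fun y => (∑ k : D.J1, y k • D.hJ k, fun u => ∑ k : D.J1, D.B u k * y k)) (by
    intro a b
    refine Prod.ext ?_ (funext fun u => ?_)
    · simp only [Pi.add_apply, add_smul, sum_add_distrib, Prod.fst_add]
    · simp only [Pi.add_apply, mul_add, sum_add_distrib, Prod.snd_add])

theorem Dt.exists_lm (D : Dt U J G F) (w : D.NN) (hw : ∀ w', Om D.π D.z w w' = 0) :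
    ∃ (l : F →ₗ[ZMod 2] ZMod 2) (μ : U → ZMod 2), ∀ k : D.J1,
      D.c w.1 k = l (D.hJ k) + ∑ u, D.B u k * μ u := by
  have hf1 : Module.Finite (ZMod 2) G := Module.Finite.of_finite
  have hf2 : Module.Finite (ZMod 2) F := Module.Finite.of_finite
  have h1 : dp D.J1 (D.c w.1) ∈ (LinearMap.ker D.th).dualAnnihilator := by
    rw [Submodule.mem_dualAnnihilator]
    intro y' hy'
    rw [LinearMap.mem_ker] at hy'
    have e1 : ∑ k : D.J1, y' k • D.hJ k = 0 := congrArg Prod.fst hy'
    have e2 : ∀ u, ∑ k : D.J1, D.B u k * y' k = 0 := fun u => congrFun (congrArg Prod.snd hy') u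
    have hmem : ((0, y', 0) : D.E) ∈ D.NN := by
      rw [Dt.mem_NN]
      constructor
      · have e3 : D.sH ((0, y', 0) : D.E) = 0 := by
          rw [D.sH_apply]
          simp only [Pi.zero_apply, zero_smul, sum_const_zero, zero_add]
          exact e1
        rw [e3]
        exact D.𝓛.zero_mem
      · funext u
        rw [D.rU_apply]
        simp only [Pi.zero_apply, add_zero, mul_zero, sum_const_zero, zero_add, map_zero,
          LinearMap.zero_apply]
        exact e2 u
    rw [← D.Om_c w y' hmem]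
    exact hw _
  rw [← LinearMap.range_dualMap_eq_dualAnnihilator_ker] at h1
  obtain ⟨φ, hφ⟩ := h1
  refine ⟨φ ∘ₗ LinearMap.inl (ZMod 2) F (U → ZMod 2), fun u => φ (0, Pi.single u 1), fun k => ?_⟩
  have h2 := LinearMap.congr_fun hφ (Pi.single k 1)
  rw [LinearMap.dualMap_apply, dp_apply] at h2
  have h3 : ∑ i : D.J1, D.c w.1 i * (Pi.single k 1 : D.J1 → ZMod 2) i = D.c w.1 k := by
    rw [sum_eq_single k]
    · rw [Pi.single_eq_same, mul_one]
    · intro m _ hm
      rw [Pi.single_eq_of_ne hm, mul_zero]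
    · intro hm
      exact absurd (mem_univ k) hm
  rw [h3] at h2
  have h4 : D.th (Pi.single k 1) = (D.hJ k, fun u => D.B u k) := by
    refine Prod.ext ?_ (funext fun u => ?_)
    · show ∑ i : D.J1, (Pi.single k 1 : D.J1 → ZMod 2) i • D.hJ i = _
      rw [sum_eq_single k]
      · rw [Pi.single_eq_same, one_smul]
      · intro m _ hm
        rw [Pi.single_eq_of_ne hm, zero_smul]
      · intro hm
        exact absurd (mem_univ k) hm
    · show ∑ i : D.J1, D.B u i * (Pi.single k 1 : D.J1 → ZMod 2) i = _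
      rw [sum_eq_single k]
      · rw [Pi.single_eq_same, mul_one]
      · intro m _ hm
        rw [Pi.single_eq_of_ne hm, mul_zero]
      · intro hm
        exact absurd (mem_univ k) hm
  rw [h4] at h2
  rw [← h2]
  have h1 : ((D.hJ k, fun u => D.B u k) : F × (U → ZMod 2)) = (D.hJ k, 0) +
      ∑ u, D.B u k • ((0, Pi.single u 1) : F × (U → ZMod 2)) := by
    refine Prod.ext ?_ ?_
    · rw [Prod.fst_add, Prod.fst_sum]
      simp
    · rw [Prod.snd_add, Prod.snd_sum]
      simp only [Prod.smul_snd, zero_add]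
      funext v
      rw [Finset.sum_apply, sum_eq_single v]
      · simp
      · intro u _ hu
        rw [Pi.smul_apply, Pi.single_eq_of_ne hu.symm, smul_zero]
      · intro hv
        exact absurd (mem_univ v) hv
  rw [h1, map_add, map_sum]
  congr 1
  refine sum_congr rfl fun u _ => ?_
  rw [map_smul, smul_eq_mul]

theorem card_dual : Nat.card (F →ₗ[ZMod 2] ZMod 2) = Nat.card F := by
  have hf2 : Module.Finite (ZMod 2) F := Module.Finite.of_finite
  rw [Module.natCard_eq_pow_finrank (K := ZMod 2) (V := F),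
    Module.natCard_eq_pow_finrank (K := ZMod 2) (V := F →ₗ[ZMod 2] ZMod 2)]
  congr 1
  exact Subspace.dual_finrank_eq

theorem card_fun2 (κ : Type) [Fintype κ] : Nat.card (κ → ZMod 2) = 2 ^ Fintype.card κ := by
  rw [Nat.card_fun, Nat.card_zmod, Nat.card_eq_fintype_card]

/-- the bound for the radical -/
theorem Dt.card_rad (D : Dt U J G F) :
    Nat.card {w : D.NN // ∀ w', Om D.π D.z w w' = 0} * 2 ^ D.J3.card ≤
      2 ^ (2 * Fintype.card U + 1 + D.J1.card) * (Nat.card F * Nat.card G) := by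
  have hfh : Finite (F →ₗ[ZMod 2] ZMod 2) := Pool.Agent.Y219.CQ.finHom
  have hex : ∀ w : {w : D.NN // ∀ w', Om D.π D.z w w' = 0},
      ∃ p : (F →ₗ[ZMod 2] ZMod 2) × (U → ZMod 2), ∀ k : D.J1,
        D.c w.1.1 k = p.1 (D.hJ k) + ∑ u, D.B u k * p.2 u := by
    intro w
    obtain ⟨l, μ, h⟩ := D.exists_lm w.1 w.2
    exact ⟨(l, μ), h⟩
  choose p hp using hex
  set Φ : {w : D.NN // ∀ w', Om D.π D.z w w' = 0} →
      ((F →ₗ[ZMod 2] ZMod 2) × (U → ZMod 2)) × (ZMod 2 × ((U → ZMod 2) × (G ×
        ({k : D.J1 // D.v (D.hJ k) = 0} → ZMod 2)))) := fun w =>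
    (p w, ∑ l : D.J1, D.v (D.hJ l) * w.1.1.2.1 l, w.1.1.1, w.1.1.2.2, fun k => w.1.1.2.1 k.1)
    with hΦ
  have hinj : Function.Injective Φ := by
    intro w w' h
    have e1 : p w = p w' := congrArg (fun t => t.1) h
    have e2 : ∑ l : D.J1, D.v (D.hJ l) * w.1.1.2.1 l = ∑ l : D.J1, D.v (D.hJ l) * w'.1.1.2.1 l :=
      congrArg (fun t => t.2.1) h
    have e3 : w.1.1.1 = w'.1.1.1 := congrArg (fun t => t.2.2.1) h
    have e4 : w.1.1.2.2 = w'.1.1.2.2 := congrArg (fun t => t.2.2.2.1) h
    have e5 : (fun k : {k : D.J1 // D.v (D.hJ k) = 0} => w.1.1.2.1 k.1) =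
        fun k : {k : D.J1 // D.v (D.hJ k) = 0} => w'.1.1.2.1 k.1 := congrArg (fun t => t.2.2.2.2) h
    have e6 : w.1.1.2.1 = w'.1.1.2.1 := by
      funext k
      by_cases hk : D.v (D.hJ k) = 0
      · exact congrFun e5 ⟨k, hk⟩
      · have hk1 : D.v (D.hJ k) = 1 := by
          have key : ∀ a : ZMod 2, a ≠ 0 → a = 1 := by decide
          exact key _ hk
        have h1 := hp w k
        have h2 := hp w' k
        unfold Dt.c at h1 h2
        rw [hk1, e3, e4, e2, e1] at h1
        rw [hk1] at h2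
        linear_combination h1 - h2
    exact Subtype.ext (Subtype.ext (Prod.ext e3 (Prod.ext e6 e4)))
  have h1 := Nat.card_le_card_of_injective Φ hinj
  rw [Nat.card_prod, Nat.card_prod, Nat.card_prod, Nat.card_prod, Nat.card_prod, card_dual,
    card_fun2, card_fun2, Nat.card_zmod] at h1
  have h2 : Fintype.card {k : D.J1 // D.v (D.hJ k) = 0} + D.J3.card = D.J1.card := by
    have h3 : Fintype.card {k : D.J1 // D.v (D.hJ k) = 0} =
        (D.J1.filter fun k => D.v (D.hJ k) = 0).card := by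
      rw [← Fintype.card_coe]
      refine Fintype.card_congr ⟨fun k => ⟨k.1.1, mem_filter.2 ⟨k.1.2, k.2⟩⟩,
        fun k => ⟨⟨k.1, (mem_filter.1 k.2).1⟩, (mem_filter.1 k.2).2⟩, fun _ => rfl, fun _ => rfl⟩
    rw [h3]
    exact Finset.card_filter_add_card_filter_not _
  calc _ ≤ (Nat.card F * 2 ^ Fintype.card U * (2 * (2 ^ Fintype.card U * (Nat.card G *
        2 ^ Fintype.card {k : D.J1 // D.v (D.hJ k) = 0})))) * 2 ^ D.J3.card :=
        Nat.mul_le_mul_right _ h1
    _ = _ := by
      rw [← h2]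
      ring

theorem Dt.card_W (D : Dt U J G F) :
    Nat.card {w : D.NN // D.π w = 0} ≤ 2 ^ Fintype.card U * Nat.card G := by
  have h1 := Nat.card_le_card_of_injective
    (fun w : {w : D.NN // D.π w = 0} => ((w.1.1.1, w.1.1.2.2) : (U → ZMod 2) × G)) (by
      intro w w' h
      have h' : ((w.1.1.1, w.1.1.2.2) : (U → ZMod 2) × G) = (w'.1.1.1, w'.1.1.2.2) := h
      have e3 : w.1.1.1 = w'.1.1.1 := (Prod.mk.inj h').1
      have e4 : w.1.1.2.2 = w'.1.1.2.2 := (Prod.mk.inj h').2
      have e6 : w.1.1.2.1 = w'.1.1.2.1 := by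
        have h1 : w.1.1.2.1 = 0 := w.2
        have h2 : w'.1.1.2.1 = 0 := w'.2
        rw [h1, h2]
      exact Subtype.ext (Subtype.ext (Prod.ext e3 (Prod.ext e6 e4))))
  rwa [Nat.card_prod, card_fun2] at h1

end fin

end Q44.BC
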