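import Pool.Agent.Q44.BC.LA5

/-!
# The law of the dimension of the solutions of the block systems: end
-/

set_option autoImplicit false
set_option linter.unusedSectionVars false

open scoped Classical

namespace Q44.BC

open Finset Module
open Pool.Agent.Y697.PP (Nd YY mem_YY)
open Pool.Agent.Y697.PQ
open Pool.Agent.Y703.CQ (prs)
open Pool.Agent.Y219.CQ (bf bf_apply bf_l bf_symm mL mL_symm pa pa_surj)

theorem yy_bot {V : Type} [AddCommGroup V] [Module (ZMod 2) V] [Finite V]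
    (P : LinearMap.BilinForm (ZMod 2) V → Prop) :
    (((YY (⊥ : Submodule (ZMod 2) V)).filter P).card : ℝ) /
      ((YY (⊥ : Submodule (ZMod 2) V)).card : ℝ) =
    Pool.Agent.Y759.CX.fr (fun S : Pool.Agent.Y219.CQ.Sy V => P S.1) := by
  have hmem : ∀ S : LinearMap.BilinForm (ZMod 2) V, S ∈ YY (⊥ : Submodule (ZMod 2) V) ↔
      S ∈ Pool.Agent.Y219.CQ.Sy V := by
    intro S
    rw [mem_YY]
    constructor
    · rintro ⟨h, -⟩
      exact h
    · intro h
      refine ⟨h, fun w hw => ?_⟩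
      rw [Submodule.mem_bot] at hw
      rw [hw, map_zero]
  have h1 : Nat.card {S : Pool.Agent.Y219.CQ.Sy V // P S.1} =
      ((YY (⊥ : Submodule (ZMod 2) V)).filter P).card := by
    rw [← Fintype.card_coe, ← Nat.card_eq_fintype_card]
    refine Nat.card_congr ?_
    exact {
      toFun := fun Y => ⟨Y.1.1, Finset.mem_filter.2 ⟨(hmem _).2 Y.1.2, Y.2⟩⟩
      invFun := fun Y => ⟨⟨Y.1, (hmem _).1 (Finset.mem_filter.1 Y.2).1⟩, (Finset.mem_filter.1 Y.2).2⟩
      left_inv := fun _ => rfl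
      right_inv := fun _ => rfl }
  have h2 : Nat.card (Pool.Agent.Y219.CQ.Sy V) = (YY (⊥ : Submodule (ZMod 2) V)).card := by
    rw [← Fintype.card_coe, ← Nat.card_eq_fintype_card]
    refine Nat.card_congr ?_
    exact {
      toFun := fun Y => ⟨Y.1, (hmem _).2 Y.2⟩
      invFun := fun Y => ⟨Y.1, (hmem _).1 Y.2⟩
      left_inv := fun _ => rfl
      right_inv := fun _ => rfl }
  unfold Pool.Agent.Y759.CX.fr
  rw [h1, h2]

variable {G F : Type} [AddCommGroup G] [Module (ZMod 2) G] [AddCommGroup F] [Module (ZMod 2) F]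
  [Finite G] [Finite F]

variable (G F) in
/-- **the law of the dimension of the space of the solutions** -/
theorem t_LAB {t : ℝ} (ht : 0 < t) (r : ℕ) {ε : ℝ} (hε : 0 < ε) : ∃ R : ℕ,
    ∀ (U J : Type) [Fintype U] [Fintype J] [LinearOrder J] (D : Dt U J G F), D.Ok →
    (∃ l, l ∉ D.J1) → (Nat.card D.𝓛 : ℝ) = t * Nat.card F →
    2 * Fintype.card U + R ≤ D.J3.card →
    |((univ.filter fun α : prs D.J1 → ZMod 2 => finrank (ZMod 2) (D.So α) = r).card : ℝ) /
        2 ^ (prs D.J1).card - lam t r| ≤ ε := by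
  obtain ⟨Jm, δ, hδ, hlaw⟩ := law_of_moments ht r hε
  set q : ℝ := Nat.card F * Nat.card G with hq
  have hF0 : (0 : ℝ) < Nat.card F := by exact_mod_cast Nat.card_pos
  have hG0 : (0 : ℝ) < Nat.card G := by exact_mod_cast Nat.card_pos
  have hF1 : (1 : ℝ) ≤ Nat.card F := by exact_mod_cast Nat.card_pos
  have hq0 : 0 < q := mul_pos hF0 hG0
  set c : ℕ → ℝ := fun j => t ^ j * ((j + 1) * 2 ^ j * 2 ^ (j * (j - 1) / 2)) with hc
  have hc0 : ∀ j, 0 ≤ c j := fun j => by positivity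
  set M : ℝ := ∑ j ∈ range (Jm + 1), c j with hM
  have hM0 : 0 ≤ M := Finset.sum_nonneg fun j _ => hc0 j
  have hcM : ∀ j ≤ Jm, c j ≤ M := fun j hj =>
    Finset.single_le_sum (fun i _ => hc0 i) (Finset.mem_range.2 (Nat.lt_succ_of_le hj))
  obtain ⟨R₀, hR₀⟩ := pow_unbounded_of_one_lt (M * (4 * q / t) / δ) (one_lt_two : (1 : ℝ) < 2)
  refine ⟨R₀ + Jm, ?_⟩
  intro U J _ _ _ D hok hl hcard hJ
  have hf1 : Module.Finite (ZMod 2) G := Module.Finite.of_finite
  have hf2 : Module.Finite (ZMod 2) F := Module.Finite.of_finite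
  have hfE : Finite D.E := by
    have : Finite (U → ZMod 2) := Finite.of_fintype _
    have : Finite (D.J1 → ZMod 2) := Finite.of_fintype _
    infer_instance
  have hfN : Fintype D.NN := Fintype.ofFinite _
  have hfD : Finite (D.J1 → ZMod 2) := Finite.of_fintype _
  have hJ31 : D.J3.card ≤ D.J1.card := Finset.card_filter_le _ _
  have hjf : finrank (ZMod 2) (D.J1 → ZMod 2) = D.J1.card := by
    rw [finrank_fintype_fun_eq_card, Fintype.card_coe]
  set T : ℝ := 2 ^ finrank (ZMod 2) D.NN with hT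
  have hT0 : 0 < T := by positivity
  have hratio : T / 2 ^ D.J1.card = t := by
    have h1 := Dt.finrank_NN hok
    have h2 : T * (2 : ℝ) ^ finrank (ZMod 2) F = 2 ^ D.J1.card * 2 ^ finrank (ZMod 2) D.𝓛 := by
      rw [hT, ← pow_add, ← pow_add, h1]
    have h3 : ((2 : ℝ) ^ finrank (ZMod 2) F) = Nat.card F := by
      rw [Module.natCard_eq_pow_finrank (K := ZMod 2) (V := F), Nat.card_zmod]
      push_cast
      rfl
    have h4 : ((2 : ℝ) ^ finrank (ZMod 2) D.𝓛) = Nat.card D.𝓛 := by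
      rw [Module.natCard_eq_pow_finrank (K := ZMod 2) (V := D.𝓛), Nat.card_zmod]
      push_cast
      rfl
    rw [h3, h4, hcard] at h2
    rw [div_eq_iff (by positivity)]
    have h5 : T * Nat.card F = t * 2 ^ D.J1.card * Nat.card F := by linarith
    exact mul_right_cancel₀ hF0.ne' h5
  -- the exceptional set
  set Z : Finset D.NN := (univ.filter fun w => D.π w = 0) ∪
    (univ.filter fun w => ∀ w', Om D.π D.z w w' = 0) with hZ
  have hZc : (Z.card : ℝ) / T ≤ 4 * q / t / 2 ^ R₀ := by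
    have h1 : ((univ.filter fun w : D.NN => D.π w = 0).card : ℝ) ≤
        2 ^ Fintype.card U * Nat.card G := by
      have h2 := D.card_W
      rw [Nat.card_eq_fintype_card, Fintype.card_subtype] at h2
      exact_mod_cast h2
    have h2 : ((univ.filter fun w : D.NN => ∀ w', Om D.π D.z w w' = 0).card : ℝ) *
        2 ^ D.J3.card ≤ 2 ^ (2 * Fintype.card U + 1 + D.J1.card) * q := by
      have h3 := D.card_rad
      rw [Nat.card_eq_fintype_card, Fintype.card_subtype] at h3
      rw [hq]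
      exact_mod_cast h3
    have h3 : (Z.card : ℝ) ≤ (univ.filter fun w : D.NN => D.π w = 0).card +
        (univ.filter fun w : D.NN => ∀ w', Om D.π D.z w w' = 0).card := by
      exact_mod_cast Finset.card_union_le _ _
    have h4 : T = t * 2 ^ D.J1.card := by
      rw [← hratio]
      field_simp
    have h5 : ((univ.filter fun w : D.NN => ∀ w', Om D.π D.z w w' = 0).card : ℝ) ≤
        2 * q * 2 ^ D.J1.card / 2 ^ R₀ := by
      rw [le_div_iff₀ (by positivity)]
      have h6 : (2 : ℝ) ^ (2 * Fintype.card U) * 2 ^ R₀ ≤ 2 ^ D.J3.card := by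
        rw [← pow_add]
        exact pow_le_pow_right₀ (by norm_num) (by omega)
      have h7 : ((univ.filter fun w : D.NN => ∀ w', Om D.π D.z w w' = 0).card : ℝ) *
          (2 ^ (2 * Fintype.card U) * 2 ^ R₀) ≤ 2 ^ (2 * Fintype.card U + 1 + D.J1.card) * q :=
        (mul_le_mul_of_nonneg_left h6 (Nat.cast_nonneg _)).trans h2
      have h8 : (2 : ℝ) ^ (2 * Fintype.card U + 1 + D.J1.card) * q =
          (2 * q * 2 ^ D.J1.card) * 2 ^ (2 * Fintype.card U) := by
        rw [pow_add, pow_add]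
        ring
      rw [h8] at h7
      have h9 : (0 : ℝ) < 2 ^ (2 * Fintype.card U) := by positivity
      have h10 : (((univ.filter fun w : D.NN => ∀ w', Om D.π D.z w w' = 0).card : ℝ) * 2 ^ R₀) *
          2 ^ (2 * Fintype.card U) ≤ (2 * q * 2 ^ D.J1.card) * 2 ^ (2 * Fintype.card U) := by
        linarith
      exact le_of_mul_le_mul_right h10 h9
    have h6 : (2 : ℝ) ^ Fintype.card U * Nat.card G ≤ q * 2 ^ D.J1.card / 2 ^ R₀ := by
      rw [le_div_iff₀ (by positivity)]
      have h7 : (2 : ℝ) ^ Fintype.card U * 2 ^ R₀ ≤ 2 ^ D.J1.card := by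
        rw [← pow_add]
        exact pow_le_pow_right₀ (by norm_num) (by omega)
      have h8 : (Nat.card G : ℝ) ≤ q := by
        rw [hq]
        exact le_mul_of_one_le_left hG0.le hF1
      calc (2 : ℝ) ^ Fintype.card U * Nat.card G * 2 ^ R₀ =
          Nat.card G * (2 ^ Fintype.card U * 2 ^ R₀) := by ring
        _ ≤ q * 2 ^ D.J1.card := mul_le_mul h8 h7 (by positivity) hq0.le
    have h7 : (Z.card : ℝ) ≤ 4 * q * 2 ^ D.J1.card / 2 ^ R₀ := by
      have h8 : (4 : ℝ) * q * 2 ^ D.J1.card / 2 ^ R₀ = 3 * (q * 2 ^ D.J1.card / 2 ^ R₀) +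
          q * 2 ^ D.J1.card / 2 ^ R₀ := by ring
      have h9 : (2 : ℝ) * q * 2 ^ D.J1.card / 2 ^ R₀ = 2 * (q * 2 ^ D.J1.card / 2 ^ R₀) := by
        ring
      have h10 : 0 ≤ q * 2 ^ D.J1.card / 2 ^ R₀ := by positivity
      rw [h9] at h5
      rw [h8]
      linarith
    rw [div_le_iff₀ hT0, h4]
    refine h7.trans (le_of_eq ?_)
    field_simp
  have hmom : ∀ j ≤ Jm, |∑ Y ∈ YY (⊥ : Submodule (ZMod 2) (D.J1 → ZMod 2)),
      ij j (2 ^ finrank (ZMod 2) (Kr D.π D.z Y)) -
      t ^ j * (YY (⊥ : Submodule (ZMod 2) (D.J1 → ZMod 2))).card| ≤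
      δ * (YY (⊥ : Submodule (ZMod 2) (D.J1 → ZMod 2))).card := by
    intro j hj
    have h1 := moment (π := D.π) (z := D.z) (Z := Z) (fun x => Dt.ker0 hok x)
      (fun x hx => by
        rw [hZ, Finset.mem_union, Finset.mem_filter, Finset.mem_filter]
        exact Or.inr ⟨mem_univ _, hx⟩)
      (fun x hx => by
        rw [hZ, Finset.mem_union, Finset.mem_filter, Finset.mem_filter]
        exact Or.inl ⟨mem_univ _, hx⟩)
      (j := j) (by rw [hjf]; omega)
    rw [hjf, hratio] at h1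
    refine h1.trans ?_
    set N : ℝ := ((YY (⊥ : Submodule (ZMod 2) (D.J1 → ZMod 2))).card : ℝ) with hN
    have hN0 : 0 ≤ N := Nat.cast_nonneg _
    have h2 : t ^ j * N * ((j + 1) * 2 ^ j * 2 ^ (j * (j - 1) / 2) * (Z.card / T)) =
        c j * (Z.card / T) * N := by
      rw [hc]
      ring
    rw [h2]
    apply mul_le_mul_of_nonneg_right _ hN0
    calc c j * (Z.card / T) ≤ M * (4 * q / t / 2 ^ R₀) :=
          mul_le_mul (hcM j hj) hZc (by positivity) hM0
      _ ≤ δ := by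
          rw [mul_div_assoc', div_le_iff₀ (by positivity)]
          rw [div_lt_iff₀ hδ] at hR₀
          linarith
  have hfin := hlaw (LinearMap.BilinForm (ZMod 2) (D.J1 → ZMod 2))
    (YY (⊥ : Submodule (ZMod 2) (D.J1 → ZMod 2))) (fun Y => finrank (ZMod 2) (Kr D.π D.z Y)) hmom
  have hpos : 0 < ((YY (⊥ : Submodule (ZMod 2) (D.J1 → ZMod 2))).card : ℝ) := by
    rw [Nat.cast_pos, Finset.card_pos]
    refine ⟨0, mem_YY.2 ⟨fun _ _ => rfl, fun _ _ => rfl⟩⟩
  obtain ⟨P, hP⟩ : ∃ P : LinearMap.BilinForm (ZMod 2) (D.J1 → ZMod 2) → Prop,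
      ∀ Y, P Y ↔ finrank (ZMod 2) (Kr D.π D.z Y) = r := ⟨_, fun _ => Iff.rfl⟩
  have h1 : |(((YY (⊥ : Submodule (ZMod 2) (D.J1 → ZMod 2))).filter P).card : ℝ) /
      ((YY (⊥ : Submodule (ZMod 2) (D.J1 → ZMod 2))).card : ℝ) - lam t r| ≤ ε := by
    rw [div_sub' hpos.ne', abs_div, abs_of_pos hpos, div_le_iff₀ hpos, mul_comm _ (lam t r)]
    refine le_trans (le_of_eq ?_) hfin
    congr 4
    ext Y
    simp only [Finset.mem_filter, hP]
  rw [yy_bot] at h1
  refine le_trans (le_of_eq ?_) h1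
  congr 2
  rw [← Pool.Agent.Y759.CX.fr_comp (pa D.J1) (pa_surj D.J1 hl)]
  unfold Pool.Agent.Y759.CX.fr
  have h6 : Nat.card (prs D.J1 → ZMod 2) = 2 ^ (prs D.J1).card := by
    rw [Nat.card_fun, Nat.card_eq_fintype_card, Nat.card_eq_fintype_card, ZMod.card,
      Fintype.card_coe]
  rw [h6, Nat.card_eq_fintype_card, Fintype.card_subtype]
  push_cast
  congr 3
  ext α
  simp only [Finset.mem_filter, hP, D.finrank_So α]

end Q44.BC
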